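import Mathlib

set_option autoImplicit false

namespace Pool.Agent.Results.MP_c84e26_co.Dense

lemma exB (k : ℕ) : ∃ B : Finset ℕ, B ⊆ Finset.range (10 ^ k) ∧ B.card = rothNumberNat (10 ^ k) ∧
    ThreeAPFree (B : Set ℕ) := rothNumberNat_spec _

lemma big (C : ℝ) (x0 : ℕ) : ∃ k, x0 ≤ 6 * 10 ^ k ∧
    C * ((6 * 10 ^ k : ℕ) : ℝ) ^ (Real.log 2 / Real.log 3) < rothNumberNat (10 ^ k) := by
  obtain ⟨k, hk⟩ := exists_nat_ge (Real.exp ((|C| + 30) ^ 2) + x0)
  have hk1 : k < 10 ^ k := Nat.lt_pow_self (by norm_num)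
  have he := Real.exp_pos ((|C| + 30) ^ 2)
  refine ⟨k, ?_, ?_⟩
  · have : (x0 : ℝ) ≤ k := by linarith
    have : x0 ≤ k := by exact_mod_cast this
    omega
  set N := 10 ^ k
  have h1 : Real.exp ((|C| + 30) ^ 2) ≤ N := by
    have : (k : ℝ) < N := by exact_mod_cast hk1
    linarith [Nat.cast_nonneg (α := ℝ) x0]
  have h0 : (0 : ℝ) < N := he.trans_le h1
  have h2 : (|C| + 30) ^ 2 ≤ Real.log N := (Real.le_log_iff_exp_le h0).2 h1
  have hN : (1 : ℝ) ≤ N := by exact_mod_cast (show 1 ≤ N by omega)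
  refine lt_of_lt_of_le ?_ (Behrend.roth_lower_bound (N := N))
  have h3 : Real.log 2 / Real.log 3 ≤ 2 / 3 := by
    rw [div_le_div_iff₀ (Real.log_pos (by norm_num)) (by norm_num)]
    have := Real.log_le_log (show (0 : ℝ) < 2 ^ 3 by norm_num) (show (2 : ℝ) ^ 3 ≤ 3 ^ 2 by norm_num)
    rw [Real.log_pow, Real.log_pow] at this
    push_cast at this
    linarith
  have h4 : ((6 * N : ℕ) : ℝ) ^ (Real.log 2 / Real.log 3) ≤ (6 * N : ℝ) ^ (2 / 3 : ℝ) := by
    push_cast
    exact Real.rpow_le_rpow_of_exponent_le (by linarith) h3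
  have h5 : C * ((6 * N : ℕ) : ℝ) ^ (Real.log 2 / Real.log 3) ≤
      (|C| + 1) * (6 * N : ℝ) ^ (2 / 3 : ℝ) :=
    mul_le_mul (by linarith [le_abs_self C]) h4 (by positivity) (by positivity)
  refine h5.trans_lt ?_
  rw [← Real.log_lt_log_iff (by positivity) (by positivity),
    Real.log_mul (by positivity) (by positivity), Real.log_mul h0.ne' (by positivity),
    Real.log_exp, Real.log_rpow (by positivity), Real.log_mul (by norm_num) h0.ne']
  have h6 := Real.log_le_sub_one_of_pos (show (0 : ℝ) < 6 by norm_num)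
  have h7 := Real.log_le_sub_one_of_pos (show (0 : ℝ) < |C| + 1 by positivity)
  have h8 : |C| + 30 ≤ √(Real.log N) := Real.le_sqrt_of_sq_le h2
  have h9 := Real.sq_sqrt (show 0 ≤ Real.log N from le_trans (by positivity) h2)
  nlinarith [abs_nonneg C]

lemma pow_step {j k : ℕ} (h : j < k) : 10 * 10 ^ j ≤ 10 ^ k := by
  rw [← pow_succ']
  exact Nat.pow_le_pow_right (by norm_num) h

/-- An extension `R` of the base ruleset whose set `A` of P-positions (the solution of the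
defining recursion) has `A(x) / x ^ (log 2 / log 3)` unbounded as `x → ∞`. -/
theorem result : ∃ (R : Set (Finset ℕ)) (A : Set ℕ),
    (∀ M ∈ R, M.Nonempty ∧ ∀ m ∈ M, 0 < m) ∧ (∀ d, 0 < d → ({d, 2 * d} : Finset ℕ) ∈ R) ∧
    (∀ n, n ∈ A ↔ ¬ ∃ M ∈ R, ∀ m ∈ M, m ≤ n ∧ n - m ∈ A) ∧
    ∀ (C : ℝ) (x0 : ℕ), ∃ x : ℕ, x0 ≤ x ∧
      C * (x : ℝ) ^ (Real.log 2 / Real.log 3) < ({i | i ∈ A ∧ i < x}.ncard : ℝ) := by
  choose B hB hc hf using exB
  have hB' : ∀ k, ∀ b ∈ B k, b < 10 ^ k := fun k b hb => Finset.mem_range.1 (hB k hb)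
  have hp : ∀ k, 0 < 10 ^ k := fun k => by positivity
  set A : Set ℕ := {n | n ≤ 1 ∨ ∃ k, ∃ b ∈ B k, n = 4 * 10 ^ k + 2 * b} with hA
  refine ⟨{M | (∃ d, 0 < d ∧ M = {d, 2 * d}) ∨ ∃ n, n ∉ A ∧ M = {n, n - 1}}, A, ?_,
    fun d hd => Or.inl ⟨d, hd, rfl⟩, fun n => ⟨?_, ?_⟩, fun C x0 => ?_⟩
  · rintro M (⟨d, hd, rfl⟩ | ⟨n, hn, rfl⟩)
    · simp [hd]
    · have : ¬ n ≤ 1 := fun h => hn (Or.inl h)
      simp
      omega
  · rintro hn ⟨M, ⟨d, hd, rfl⟩ | ⟨m, hm, rfl⟩, h⟩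
    · obtain ⟨h1, h2⟩ := h d (by simp)
      obtain ⟨h3, h4⟩ := h (2 * d) (by simp)
      rcases hn with hn | ⟨k, c, hc, hn⟩
      · omega
      have := hB' k c hc
      have := hp k
      rcases h2 with h2 | ⟨j, b, hb, h2⟩
      · omega
      have := hB' j b hb
      obtain rfl : j = k := by
        rcases lt_trichotomy j k with h | h | h
        · have := pow_step h; omega
        · exact h
        · have := pow_step h; omega
      rcases h4 with h4 | ⟨i, a, ha, h4⟩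
      · omega
      have := hB' i a ha
      obtain rfl : i = j := by
        rcases lt_trichotomy i j with h | h | h
        · have := pow_step h; omega
        · exact h
        · have := pow_step h; omega
      have := hf i ha hb hc (by omega)
      omega
    · have hm1 : ¬ m ≤ 1 := fun h => hm (Or.inl h)
      obtain ⟨h1, h2⟩ := h m (by simp)
      obtain ⟨h3, h4⟩ := h (m - 1) (by simp)
      have h5 : n ≠ m := by rintro rfl; exact hm hn
      rcases h2 with h2 | ⟨j, b, hb, h2⟩ <;> rcases h4 with h4 | ⟨i, a, ha, h4⟩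
      · omega
      · have := hp i; omega
      · have := hp j; omega
      · omega
  · intro h
    by_contra hn
    have hn1 : ¬ n ≤ 1 := fun h => hn (Or.inl h)
    refine h ⟨_, Or.inr ⟨n, hn, rfl⟩, fun m hm => ?_⟩
    rcases Finset.mem_insert.1 hm with rfl | hm
    · exact ⟨le_rfl, Or.inl (by omega)⟩
    · rw [Finset.mem_singleton.1 hm]
      exact ⟨by omega, Or.inl (by omega)⟩
  · obtain ⟨k, h1, h2⟩ := big C x0
    refine ⟨_, h1, h2.trans_le ?_⟩
    rw [← hc, ← Set.ncard_coe_finset, Nat.cast_le]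
    refine Set.ncard_le_ncard_of_injOn (fun b => 4 * 10 ^ k + 2 * b) (fun b hb => ?_)
      (fun a _ b _ h => by simp only at h; omega) ((Set.finite_Iio _).subset fun i hi => hi.2)
    have := hB' k b hb
    exact ⟨Or.inr ⟨k, b, hb, rfl⟩, by omega⟩

end Pool.Agent.Results.MP_c84e26_co.Dense
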